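import Pool.Agent.helper17.RX.Spec

set_option autoImplicit false

namespace TP.TW

open DP MeasureTheory Finset

theorem ENV_aux (c p w : ℝ) (hp : p ≠ 0) (hw : w ≠ 0) : c / w = p * (c * (1 / (p * w))) := by
  field_simp

open Classical in
theorem ENV (enx : EN.ENX_stmt) (prn : PRN_stmt) : ENV_stmt := by
  intro κ T S Ω Λ z N E j hE hS hN
  set W : Finset V := Ω ∪ insert z Λ with hW
  have hΩW : Ω ⊆ W := Finset.subset_union_left
  have hzΛW : insert z Λ ⊆ W := Finset.subset_union_right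
  have hΛW : Λ ⊆ W := (Finset.subset_insert z Λ).trans hzΛW
  have hzW : z ∈ W := hzΛW (Finset.mem_insert_self z Λ)
  let ε : Fin #W → V := fun i => (W.equivFin.symm i).1
  have hε : Function.Injective ε := by
    intro i j hij
    exact W.equivFin.symm.injective (Subtype.ext hij)
  have hεv : ∀ (v : V) (h : v ∈ W), ε (W.equivFin ⟨v, h⟩) = v := by
    intro v h
    show (W.equivFin.symm (W.equivFin ⟨v, h⟩)).1 = v
    rw [Equiv.symm_apply_apply]
  let ex : (Fin #W → Bool) → (V → Bool) := fun x v => if h : v ∈ W then x (W.equivFin ⟨v, h⟩) else false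
  have hexv : ∀ (x : Fin #W → Bool) (v : V) (h : v ∈ W), ex x v = x (W.equivFin ⟨v, h⟩) := by
    intro x v h
    show (if h : v ∈ W then x (W.equivFin ⟨v, h⟩) else false) = _
    rw [dif_pos h]
  have hβ : ∀ (β : V → Bool) (v : V), v ∈ W → ex (fun i => β (ε i)) v = β v := by
    intro β v h
    have h1 := hexv (fun i => β (ε i)) v h
    have h2 : β (ε (W.equivFin ⟨v, h⟩)) = β v := by rw [hεv v h]
    exact h1.trans h2
  have hEx : ∀ β : V → Bool, (ex (fun i => β (ε i)) ∈ E ↔ β ∈ E) :=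
    fun β => hE _ _ (fun v hv => hβ β v (hΛW hv))
  have hSd : ∀ τ ∈ T, ∀ (i : ℕ) (β β' : V → Bool), (∀ v ∈ Ω, β v = β' v) → S τ i β = S τ i β' := by
    intro τ hτ i β β' h
    obtain ⟨h0, h1, h2⟩ := hS τ hτ
    cases i with
    | zero => rw [h0, h0]
    | succ i => exact h2 i β β' (fun v hv => h v ((h1 i β).2 hv))
  have hSx : ∀ τ ∈ T, ∀ (i : ℕ) (β : V → Bool), S τ i (ex (fun i => β (ε i))) = S τ i β :=
    fun τ hτ i β => hSd τ hτ i _ _ (fun v hv => hβ β v (hΩW hv))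
  have hirr : ∀ (P : (Fin #W → Bool) → Prop) (i1 i2 : DecidablePred P),
      (#(@Finset.filter _ P i1 univ) : ℝ) / 2 ^ #W = (#(@Finset.filter _ P i2 univ) : ℝ) / 2 ^ #W := by
    intro P i1 i2
    rw [Subsingleton.elim i1 i2]
  have pE : Pr E = (#{x : Fin #W → Bool | ex x ∈ E} : ℝ) / 2 ^ #W := by
    have h1 := prn #W ε hε (fun x => ex x ∈ E)
    have h2 : E = {β : V → Bool | ex (fun i => β (ε i)) ∈ E} := by
      ext β
      exact (hEx β).symm
    have h3 : Pr E = Pr {β : V → Bool | ex (fun i => β (ε i)) ∈ E} := congrArg Pr h2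
    exact (h3.trans h1).trans (hirr (fun x => ex x ∈ E) _ _)
  have pS : ∀ τ ∈ T, ∀ (i : ℕ) (v : V),
      Pr {β | v ∈ S τ i β} = (#{x : Fin #W → Bool | v ∈ S τ i (ex x)} : ℝ) / 2 ^ #W := by
    intro τ hτ i v
    have h1 := prn #W ε hε (fun x => v ∈ S τ i (ex x))
    have h2 : {β : V → Bool | v ∈ S τ i β} = {β : V → Bool | v ∈ S τ i (ex (fun i => β (ε i)))} := by
      ext β
      show v ∈ S τ i β ↔ v ∈ S τ i (ex (fun i => β (ε i)))
      rw [hSx τ hτ i β]
    exact ((congrArg Pr h2).trans h1).trans (hirr (fun x => v ∈ S τ i (ex x)) _ _)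
  have pES : ∀ τ ∈ T, Pr (E ∩ {β | z ∈ S τ (j + 1) β}) =
      (#{x : Fin #W → Bool | z ∈ S τ (j + 1) (ex x) ∧ ex x ∈ E} : ℝ) / 2 ^ #W := by
    intro τ hτ
    have h1 := prn #W ε hε (fun x => z ∈ S τ (j + 1) (ex x) ∧ ex x ∈ E)
    have h2 : E ∩ {β : V → Bool | z ∈ S τ (j + 1) β} =
        {β : V → Bool | z ∈ S τ (j + 1) (ex (fun i => β (ε i))) ∧ ex (fun i => β (ε i)) ∈ E} := by
      ext β
      show (β ∈ E ∧ z ∈ S τ (j + 1) β) ↔
        (z ∈ S τ (j + 1) (ex (fun i => β (ε i))) ∧ ex (fun i => β (ε i)) ∈ E)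
      rw [hSx τ hτ (j + 1) β, hEx β]
      exact and_comm
    exact ((congrArg Pr h2).trans h1).trans
      (hirr (fun x => z ∈ S τ (j + 1) (ex x) ∧ ex x ∈ E) _ _)
  have h2W : (0 : ℝ) < 2 ^ #W := by positivity
  by_cases hp : Pr E = 0
  · rw [hp, zero_mul]
    refine le_of_eq (Finset.sum_eq_zero ?_)
    intro τ hτ
    rw [pES τ hτ]
    have h3 : #{x : Fin #W → Bool | ex x ∈ E} = 0 := by
      rw [hp] at pE
      have h4 : (#{x : Fin #W → Bool | ex x ∈ E} : ℝ) = 0 := by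
        rcases div_eq_zero_iff.1 pE.symm with h | h
        · exact h
        · exact absurd h (ne_of_gt h2W)
      exact_mod_cast h4
    have h5 : #{x : Fin #W → Bool | z ∈ S τ (j + 1) (ex x) ∧ ex x ∈ E} = 0 := by
      rw [Finset.card_eq_zero] at h3 ⊢
      rw [Finset.filter_eq_empty_iff] at h3 ⊢
      intro x hx hx2
      exact h3 hx hx2.2
    rw [h5]
    simp
  have hp0 : 0 < Pr E := lt_of_le_of_ne (by rw [pE]; positivity) (Ne.symm hp)
  have hp1 : Pr E ≤ 1 := by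
    rw [pE, div_le_one h2W]
    have h3 : #{x : Fin #W → Bool | ex x ∈ E} ≤ 2 ^ #W := by
      refine (Finset.card_filter_le _ _).trans (le_of_eq ?_)
      rw [Finset.card_univ]
      simp
    exact_mod_cast h3
  let S' : κ → ℕ → EN.Om #W → Finset (Fin #W) := fun τ i x => univ.filter (fun u => ε u ∈ S τ i (ex x))
  have hS'm : ∀ τ i x u, u ∈ S' τ i x ↔ ε u ∈ S τ i (ex x) := by
    intro τ i x u
    show u ∈ univ.filter (fun u => ε u ∈ S τ i (ex x)) ↔ _
    rw [Finset.mem_filter]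
    exact ⟨fun h => h.2, fun h => ⟨Finset.mem_univ _, h⟩⟩
  have hR : ∀ τ ∈ T, EN.Rounds (S' τ) := by
    intro τ hτ
    obtain ⟨h0, h1, h2⟩ := hS τ hτ
    refine ⟨?_, ?_⟩
    · intro x
      ext u
      rw [hS'm, h0]
      simp
    · intro i x
      refine ⟨?_, ?_⟩
      · intro u hu
        rw [hS'm] at hu ⊢
        exact (h1 i (ex x)).1 hu
      · intro y hy
        have h3 : S τ (i + 1) (ex x) = S τ (i + 1) (ex y) := by
          apply h2
          intro v hv
          have hvW : v ∈ W := hΩW ((h1 i (ex x)).2 hv)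
          rw [hexv x v hvW, hexv y v hvW]
          refine (hy _ ?_).symm
          rw [hS'm, hεv v hvW]
          exact hv
        ext u
        rw [hS'm, hS'm, h3]
  let Λ' : Finset (Fin #W) := univ.filter (fun u => ε u ∈ Λ)
  have hΛ'm : ∀ u, u ∈ Λ' ↔ ε u ∈ Λ := by
    intro u
    show u ∈ univ.filter (fun u => ε u ∈ Λ) ↔ _
    rw [Finset.mem_filter]
    exact ⟨fun h => h.2, fun h => ⟨Finset.mem_univ _, h⟩⟩
  have hcard : #Λ' = #Λ := by
    rw [← Finset.card_image_of_injective Λ' hε]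
    congr 1
    ext v
    rw [Finset.mem_image]
    constructor
    · rintro ⟨u, hu, rfl⟩
      exact (hΛ'm u).1 hu
    · intro hv
      exact ⟨W.equivFin ⟨v, hΛW hv⟩, (hΛ'm _).2 (by rw [hεv v (hΛW hv)]; exact hv), hεv v (hΛW hv)⟩
  let z' : Fin #W := W.equivFin ⟨z, hzW⟩
  have hz' : ε z' = z := hεv z hzW
  have hN' : ∀ i : ℕ, ∀ v ∈ insert z' Λ', ∑ τ ∈ T, (#{x : EN.Om #W | v ∈ S' τ i x} : ℝ) / 2 ^ #W ≤ N := by
    intro i v hv
    have hv' : ε v ∈ insert z Λ := by
      rw [Finset.mem_insert] at hv ⊢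
      rcases hv with h | h
      · left
        rw [h, hz']
      · right
        exact (hΛ'm v).1 h
    refine le_trans (le_of_eq ?_) (hN i (ε v) hv')
    refine Finset.sum_congr rfl ?_
    intro τ hτ
    rw [pS τ hτ i (ε v)]
    congr 2
    exact congrArg Finset.card (Finset.filter_congr (fun x _ => hS'm τ i x v))
  let Q : EN.Om #W → ℝ := fun x => if ex x ∈ E then 1 / (Pr E * 2 ^ #W) else 0
  have hQ0 : ∀ x, 0 ≤ Q x := by
    intro x
    show 0 ≤ if ex x ∈ E then 1 / (Pr E * 2 ^ #W) else 0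
    split_ifs
    · positivity
    · exact le_rfl
  have hcE : (#{x : Fin #W → Bool | ex x ∈ E} : ℝ) = Pr E * 2 ^ #W := by
    rw [pE]
    field_simp
  have hLaw : EN.Law Q := by
    refine ⟨hQ0, ?_⟩
    show ∑ x : Fin #W → Bool, (if ex x ∈ E then 1 / (Pr E * 2 ^ #W) else 0) = 1
    rw [← Finset.sum_filter, Finset.sum_const, nsmul_eq_mul, hcE]
    field_simp
  have hQΛ : ∀ x y : EN.Om #W, (∀ u ∈ Λ', x u = y u) → Q x = Q y := by
    intro x y hxy
    have h3 : ex x ∈ E ↔ ex y ∈ E := by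
      apply hE
      intro v hv
      rw [hexv x v (hΛW hv), hexv y v (hΛW hv)]
      apply hxy
      rw [hΛ'm, hεv v (hΛW hv)]
      exact hv
    show (if ex x ∈ E then 1 / (Pr E * 2 ^ #W) else 0) = if ex y ∈ E then 1 / (Pr E * 2 ^ #W) else 0
    by_cases h4 : ex x ∈ E
    · rw [if_pos h4, if_pos (h3.1 h4)]
    · rw [if_neg h4, if_neg (fun h => h4 (h3.2 h))]
  have hL0 : 0 ≤ Real.log (1 / Pr E) := by
    apply Real.log_nonneg
    rw [le_div_iff₀ hp0]
    linarith
  have hexp : Real.exp (Real.log (1 / Pr E)) = 1 / Pr E := Real.exp_log (by positivity)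
  have hQle : ∀ x, Q x ≤ Real.exp (Real.log (1 / Pr E)) / 2 ^ #W := by
    intro x
    rw [hexp]
    show (if ex x ∈ E then 1 / (Pr E * 2 ^ #W) else 0) ≤ _
    split_ifs
    · rw [div_div]
    · positivity
  have key := enx j #W κ T S' Λ' z' N hR hN' Q (Real.log (1 / Pr E)) hLaw hQΛ hL0 hQle z'
    (Finset.mem_insert_self _ _)
  rw [hcard] at key
  have e1 : ∀ τ ∈ T, Pr (E ∩ {β | z ∈ S τ (j + 1) β}) =
      Pr E * ∑ x with z' ∈ S' τ (j + 1) x, Q x := by
    intro τ hτ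
    rw [pES τ hτ]
    have h3 : ∑ x with z' ∈ S' τ (j + 1) x, Q x =
        (#{x : Fin #W → Bool | z ∈ S τ (j + 1) (ex x) ∧ ex x ∈ E} : ℝ) * (1 / (Pr E * 2 ^ #W)) := by
      show ∑ x ∈ univ.filter (fun x => z' ∈ S' τ (j + 1) x),
        (if ex x ∈ E then 1 / (Pr E * 2 ^ #W) else 0) = _
      rw [← Finset.sum_filter, Finset.sum_const, nsmul_eq_mul, Finset.filter_filter]
      congr 2
      refine congrArg Finset.card (Finset.filter_congr (fun x _ => ?_))
      have h5 := hS'm τ (j + 1) x z'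
      rw [hz'] at h5
      exact and_congr_left' h5
    rw [h3]
    exact ENV_aux _ _ _ hp h2W.ne'
  rw [Finset.sum_congr rfl e1, ← Finset.mul_sum]
  exact mul_le_mul_of_nonneg_left key hp0.le

end TP.TW
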